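import Pool.Agent.R756.CH.Fin

/-!
# The gap above `1/3` for posets with a nontrivial automorphism, or with two elements of nearly
equal average height

The balance constant `balance` and the probability `prob P x y` that `x` comes before `y` in a random
linear extension are those of the problem.  `avgHeight P x` is the average, over all linear
extensions, of the number of elements before `x`.

* For every finite poset and every two incomparable elements `x`, `y` the probability that `x` comes
  before `y` is at least `exp (-1 - |h x - h y|)`, where `h` is the average height.  For `h x = h y`
  the bound is `1 / e`.
* So a finite poset with two different elements whose average heights differ by less than one has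
  balance constant at least `exp (-1 - |h x - h y|)`; this is more than `1/3 + 1/70` if the difference
  is at most `1/20`.
* A finite poset (of any width) with an automorphism that is not the identity has balance constant at
  least `1 / e > 1/3 + 1/30`.

Proof.  The law of `f y - f x` for a random order preserving map `f` to a large grid is log-concave
(four functions theorem).  In the limit its density at zero and its mean positive and negative part
are given by the numbers of linear extensions in which `x` and `y` are adjacent and by the mean gaps
in the linear extensions (steps `L1`, `L3` of the starting result `BeyondBFT`; for `L3` we need the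
sharp factor).  The two mean parts differ by the difference of the average heights, and this gives
the bound.
-/

set_option autoImplicit false

namespace Pool.Agent.Results.MP_33fb9b_co.CloseHeights

open Pool.Agent.H13R3.WB Pool.Agent.R756.CH

theorem result :
    (∀ (P : Type) [Fintype P] [PartialOrder P] (x y : P), ¬ x ≤ y → ¬ y ≤ x →
      Real.exp (-1 - |avgHeight P x - avgHeight P y|) ≤ prob P x y) ∧
    (∀ (P : Type) [Fintype P] [PartialOrder P] (x y : P), x ≠ y →
      |avgHeight P x - avgHeight P y| < 1 →
      Real.exp (-1 - |avgHeight P x - avgHeight P y|) ≤ balance P) ∧
    (∀ (P : Type) [Fintype P] [PartialOrder P] (x y : P), x ≠ y →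
      |avgHeight P x - avgHeight P y| ≤ 1 / 20 → 1 / 3 + 1 / 70 ≤ balance P) ∧
    (∀ (P : Type) [Fintype P] [PartialOrder P] (φ : P ≃o P), (∃ x, φ x ≠ x) →
      Real.exp (-1) ≤ balance P) ∧
    (1 : ℝ) / 3 + 1 / 30 < Real.exp (-1) :=
  ⟨fun P _ _ x y hxy hyx => by
      have := prob_ge hyx hxy
      rwa [abs_sub_comm] at this,
    fun _ _ _ _ _ h1 h2 => balance_ge h1 h2, fun _ _ _ _ _ h1 h2 => balance_gap h1 h2,
    fun _ _ _ φ h => balance_auto φ h, exp_ge⟩

end Pool.Agent.Results.MP_33fb9b_co.CloseHeights
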