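import Mathlib
import Pool.Agent.R636.BGap7

/-!
# The gap above `1/3` for posets without `V + 1`, their duals, Young diagrams, and sums of these

Let `V + 1` be the poset with four elements `x`, `w`, `w'`, `y` and the relations `x < w`, `x < w'`.
There is an absolute constant `ε > 0` such that `P ∈ 𝒟` or `δ(P) ≥ 1/3 + ε` for every finite poset `P`
that is built by disjoint sums and direct sums from posets without induced `V + 1`, the duals of such
posets, and the posets of the cells of Young diagrams.  All posets of width two are of the first kind.

Proof.  A poset without `V + 1` which is not a direct sum has width at most two or has three minimal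
elements; the sets of upper elements of minimal elements differ by chains.  So the results on three
elements with the same lower elements and on width two apply.  In a Young diagram with at least three
rows and three columns the two cells next to the corner have the same lower elements, and their sets of
upper elements differ by chains in both directions.
-/

set_option autoImplicit false

namespace Pool.Agent.Results.MP_33fb9b_co.ForbiddenVPlusOne

open Pool.Agent.H13R3.WB Pool.Agent.H931R3.Bal Pool.Agent.R636.BG

theorem result : ∃ ε : ℝ, 0 < ε ∧ ∀ (R : Type) [Fintype R] [PartialOrder R],
    Built (fun P _ => Nonempty P ∧ (VOneFree P ∨ VOneFree Pᵒᵈ ∨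
      ∃ μ : YoungDiagram, Nonempty (P ≃o μ.cells))) R → InD R ∨ 1 / 3 + ε ≤ balance R :=
  class_gap

end Pool.Agent.Results.MP_33fb9b_co.ForbiddenVPlusOne
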