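import Mathlib
import Pool.Agent.R636.BGap7

/-!
# The gap above `1/3` for posets with a good pair

A good pair in the sense of Zaguia is a pair `(a, b)` of different elements such that everything below
`a` is below `b`, the elements above `b` and not above `a` form a chain, and `a` comes before `b` with
probability at most one half.  A poset with a good pair has balance constant at least `1/3` (Zaguia).
Here it is shown that there is an absolute constant `ε > 0` such that the balance constant is at least
`1/3 + ε`, unless the following exceptional structure occurs: `a` and `b` have the same elements below
them, all elements above `a` are above `b`, and the least element `z` above `b` and not above `a` is the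
only one if and only if `z` has exactly the elements below `a`, and `b`, below it, and all elements above
`a` above it (the only one: `{a, b, z}` is an autonomous copy of the poset with three elements in `𝒟`).
For three elements with the same elements below them, whose sets of upper elements differ pairwise by
chains, there is no exception.  The same holds for the dual poset.

Proof.  If there is no gap, then the poset is `K`-thin by the earlier result on elements with many
incomparable elements.  The exchange of the places of `a` and of an element of the chain gives
monotone probabilities; almost equality holds in them, hence the sets of linear extensions where the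
exchange is impossible have small probability.  In a `K`-thin poset such a set has a probability bounded
from below if it is not empty, by local moves (maps on linear extensions with bounded fibres).
-/

set_option autoImplicit false

namespace Pool.Agent.Results.MP_33fb9b_co.GoodPairs

open Pool.Agent.H13R3.WB Pool.Agent.R636.BG

theorem result : ∃ ε : ℝ, 0 < ε ∧ ∀ (P : Type) [Fintype P] [PartialOrder P],
    (∀ a b : P, GoodPair P a b → Exc P a b ∨ 1 / 3 + ε ≤ balance P) ∧
    (∀ a b : Pᵒᵈ, GoodPair Pᵒᵈ a b → Exc Pᵒᵈ a b ∨ 1 / 3 + ε ≤ balance P) ∧
    (∀ x y z : P, Near P x y → Near P y z → Near P x z → 1 / 3 + ε ≤ balance P) ∧
    (∀ x y z : Pᵒᵈ, Near Pᵒᵈ x y → Near Pᵒᵈ y z → Near Pᵒᵈ x z → 1 / 3 + ε ≤ balance P) :=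
  pair_gap

end Pool.Agent.Results.MP_33fb9b_co.GoodPairs
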