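import Mathlib
import Pool.Agent.R636.BGap8

/-!
# The gap above `1/3` for posets with a thin maximal antichain and for `3`-thin posets

Call a maximal antichain `A` of a finite poset `P` thin if every element of `A` is incomparable to at
most one element of `P` outside `A`.  There is an absolute constant `ε > 0` such that every finite poset
with a thin maximal antichain of at least three elements satisfies `δ(P) ≥ 1/3 + ε`, and every finite
poset in which each element is incomparable to at most three others is in the class `𝒟` or satisfies
`δ(P) ≥ 1/3 + ε`.  The same dichotomy holds for all posets built from such posets by disjoint sums and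
direct sums.

Proof.  Up to duality two elements `u`, `v` of `A` have their outside incomparable elements above `A`.
They have the same lower elements, and their sets of upper elements differ by at most one element in
each direction, so they form a good pair; by the theorem on good pairs this pair is exceptional, and
a third element of `A` is incomparable to the top of the exceptional triple, which gives a
non-exceptional good pair.  In a poset in which every element is incomparable to at most three others,
every maximum antichain with at least three elements is thin.
-/

set_option autoImplicit false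

namespace Pool.Agent.Results.MP_33fb9b_co.ThinAntichains

open Pool.Agent.H13R3.WB Pool.Agent.H931R3.Bal Pool.Agent.R636.BG

theorem result : ∃ ε : ℝ, 0 < ε ∧
    (∀ (P : Type) [Fintype P] [PartialOrder P] [Nonempty P],
      (∀ A : Finset P, ThinAnti P A → 3 ≤ A.card → 1 / 3 + ε ≤ balance P) ∧
      ((∀ x : P, Nat.card {y : P // ¬ x ≤ y ∧ ¬ y ≤ x} ≤ 3) → InD P ∨ 1 / 3 + ε ≤ balance P)) ∧
    ∀ (R : Type) [Fintype R] [PartialOrder R],
      Built (fun P _ => Nonempty P ∧ ((∃ A : Finset P, ThinAnti P A ∧ 3 ≤ A.card) ∨
        ∀ x : P, Nat.card {y : P // ¬ x ≤ y ∧ ¬ y ≤ x} ≤ 3)) R → InD R ∨ 1 / 3 + ε ≤ balance R := by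
  obtain ⟨ε, h0, h1⟩ := thin_gap
  obtain ⟨ε', h0', h1'⟩ := thin_class
  refine ⟨min ε ε', lt_min h0 h0', fun P _ _ _ => ⟨fun A hA hA3 => ?_, fun hP => ?_⟩,
    fun R _ _ hR => ?_⟩
  · linarith [(h1 P).1 A hA hA3, min_le_left ε ε']
  · rcases (h1 P).2 hP with h | h
    · exact Or.inl h
    · right; linarith [min_le_left ε ε']
  · rcases h1' R hR with h | h
    · exact Or.inl h
    · right; linarith [min_le_right ε ε']

end Pool.Agent.Results.MP_33fb9b_co.ThinAntichains
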